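import Pool.Agent.Helper19.QR.Defs

/-!
# The pointwise inequality for the fourth root bound
-/

set_option autoImplicit false

open Real Set

namespace Pool.Agent.Helper14.QR

open Pool.Agent.Helper19.QR

/-- `x e ^ (-x) ≤ 3 / 8` -/
theorem mul_exp_neg_le (x : ℝ) : x * exp (-x) ≤ 3 / 8 := by
  have h1 : x ≤ exp (x - 1) := by
    have := Real.add_one_le_exp (x - 1)
    linarith
  have h2 : exp (x - 1) * exp (-x) = exp (-1) := by
    rw [← Real.exp_add]
    congr 1
    ring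
  have h3 : exp (-1) ≤ 3 / 8 := by
    rw [Real.exp_neg, inv_le_comm₀ (Real.exp_pos 1) (by norm_num)]
    have := Real.exp_one_gt_d9
    norm_num
    linarith
  calc x * exp (-x) ≤ exp (x - 1) * exp (-x) :=
        mul_le_mul_of_nonneg_right h1 (Real.exp_pos _).le
    _ = exp (-1) := h2
    _ ≤ 3 / 8 := h3

theorem cubic_le {c : ℝ} (h1 : -1 ≤ c) (h2 : c ≤ 1) : (1 - c) * (1 - c ^ 2) ≤ 32 / 27 := by
  nlinarith [mul_nonneg (sq_nonneg (c + 1 / 3)) (by linarith : (0 : ℝ) ≤ 5 / 3 - c)]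

/-- `q ≥ |c|` -/
theorem abs_le_q {k : ℕ} (hk : 4 ≤ k) (c : ℝ) :
    |c| ≤ (√(k : ℝ))⁻¹ / 2 + √(k : ℝ) * c ^ 2 / 2 := by
  have hk0 : (0 : ℝ) < k := by exact_mod_cast (by omega : 0 < k)
  have hs : 0 < √(k : ℝ) := Real.sqrt_pos.2 hk0
  have h1 : (√(k : ℝ))⁻¹ / 2 + √(k : ℝ) * c ^ 2 / 2 - |c| =
      (√(k : ℝ))⁻¹ / 2 * (1 - √(k : ℝ) * |c|) ^ 2 := by
    rw [← sq_abs c]
    field_simp
    ring
  have h2 : 0 ≤ (√(k : ℝ))⁻¹ / 2 * (1 - √(k : ℝ) * |c|) ^ 2 := by positivity
  linarith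

theorem w_c_le {k : ℕ} (hk : 4 ≤ k) {t w : ℝ} (hw : w = sin t ^ (k - 1)) (hw0 : 0 ≤ w) :
    ((k : ℝ) - 1) * (w * |cos t|) ≤ √(((k : ℝ) - 1) / 2) := by
  have hk1 : (0 : ℝ) < (k : ℝ) - 1 := by
    have : (4 : ℝ) ≤ k := by exact_mod_cast hk
    linarith
  have hcast : ((k - 1 : ℕ) : ℝ) = (k : ℝ) - 1 := by
    rw [Nat.cast_sub (by omega), Nat.cast_one]
  refine Real.le_sqrt_of_sq_le ?_
  have h1 : w ^ 2 ≤ exp (-(((k : ℝ) - 1) * cos t ^ 2)) := by
    have e1 : w ^ 2 = (1 - cos t ^ 2) ^ (k - 1) := by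
      rw [hw, ← pow_mul, mul_comm, pow_mul, ← Real.sin_sq]
    have e2 : exp (-(((k : ℝ) - 1) * cos t ^ 2)) = exp (-cos t ^ 2) ^ (k - 1) := by
      rw [← Real.exp_nat_mul, hcast]
      congr 1
      ring
    rw [e1, e2]
    refine pow_le_pow_left₀ ?_ ?_ _
    · rw [← Real.sin_sq]; positivity
    · have := Real.add_one_le_exp (-cos t ^ 2)
      linarith
  have h2 := mul_exp_neg_le (((k : ℝ) - 1) * cos t ^ 2)
  have h3 : (((k : ℝ) - 1) * (w * |cos t|)) ^ 2 =
      ((k : ℝ) - 1) * ((((k : ℝ) - 1) * cos t ^ 2) * w ^ 2) := by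
    rw [mul_pow, mul_pow, sq_abs]
    ring
  rw [h3]
  have h4 : (((k : ℝ) - 1) * cos t ^ 2) * w ^ 2 ≤ 3 / 8 :=
    le_trans (mul_le_mul_of_nonneg_left h1 (by positivity)) h2
  have h5 := mul_le_mul_of_nonneg_left h4 hk1.le
  linarith

/-- The pointwise inequality. -/
theorem point {k : ℕ} (hk : 4 ≤ k) {l ρ : ℝ} (hl : 0 < l) (hρ : 0 < ρ) {t : ℝ} (ht : t ∈ Ioo 0 π)
    {r w A z ξ b g : ℝ} (hr : r * sin t = ρ * (1 - cos t)) (hw : w = sin t ^ (k - 1))
    (hA : 32 / 27 * ρ * k + 11 / 8 + k / l + √(((k : ℝ) - 1) / 2) ≤ k * A)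
    (hz : 0 ≤ z) (hξ0 : 0 ≤ ξ) (hξ : ξ ≤ 1) (hb : b ≤ 1) (hg : |g| ≤ 1) :
    0 ≤ k * (A + l * w * (1 - exp (-z / l))) * (1 - ξ)
      + ξ * (H k l ρ t * sin t + l * ((k - 1) * w * cos t) * (1 - exp (-z / l)))
      - w * exp (-z / l) * z * ξ - k * r * w * exp (-z / l)
      - (w + (k - 1) * w * cos t) * exp (-z / l) * g
      - w * exp (-z / l) / l * (k * b + z * g) := by
  have hk4 : (4 : ℝ) ≤ k := by exact_mod_cast hk
  have hk0 : (0 : ℝ) < k := by linarith
  have hk1 : (0 : ℝ) < (k : ℝ) - 1 := by linarith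
  have hs : 0 < sin t := Real.sin_pos_of_pos_of_lt_pi ht.1 ht.2
  have hs1 : sin t ≤ 1 := Real.sin_le_one t
  have hc1 : cos t ≤ 1 := Real.cos_le_one t
  have hc2 : -1 ≤ cos t := Real.neg_one_le_cos t
  have hw0 : 0 ≤ w := by rw [hw]; positivity
  have hw1 : w ≤ 1 := by rw [hw]; exact pow_le_one₀ hs.le hs1
  have hr0 : 0 ≤ r := by
    have h1 : 0 ≤ r * sin t := by rw [hr]; exact mul_nonneg hρ.le (by linarith)
    exact nonneg_of_mul_nonneg_left h1 hs
  have hwc := w_c_le hk hw hw0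
  have hq := abs_le_q hk (cos t)
  -- `r w = ρ (1 - c) sin ^ (k - 2)`
  have hrw : r * w = ρ * ((1 - cos t) * sin t ^ (k - 2)) := by
    have e1 : k - 1 = (k - 2) + 1 := by omega
    rw [hw, e1, pow_succ]
    linear_combination (sin t ^ (k - 2)) * hr
  have hrw1 : r * w ≤ 32 / 27 * ρ := by
    have h1 : sin t ^ (k - 2) ≤ sin t ^ 2 :=
      pow_le_pow_of_le_one hs.le hs1 (by omega)
    have h2 : (1 - cos t) * sin t ^ (k - 2) ≤ (1 - cos t) * (1 - cos t ^ 2) := by
      rw [← Real.sin_sq]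
      exact mul_le_mul_of_nonneg_left h1 (by linarith)
    have h3 := cubic_le hc2 hc1
    rw [hrw]
    have := mul_le_mul_of_nonneg_left (h2.trans h3) hρ.le
    linarith
  -- `H sin t`
  have hH : H k l ρ t * sin t = w * ((l / 2 + 1) * (k - 1) *
      ((√(k : ℝ))⁻¹ / 2 + √(k : ℝ) * cos t ^ 2 / 2) - l / 2 * (k - 1) * cos t + cw k l) +
      k * (r * w) := by
    have e1 : sin t ^ (k - 1) = sin t ^ (k - 2) * sin t := by
      rw [show k - 1 = (k - 2) + 1 by omega, pow_succ]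
    have e2 : sin t ^ (k - 2) = sin t ^ (k - 3) * sin t := by
      rw [show k - 2 = (k - 3) + 1 by omega, pow_succ]
    rw [hrw, hw, e1]
    unfold H
    rw [e2]
    ring
  set c := cos t with hcdef
  set f := exp (-z / l) with hf
  have hf0 : 0 < f := Real.exp_pos _
  have hf1 : f ≤ 1 := by
    rw [hf, Real.exp_le_one_iff]
    exact div_nonpos_of_nonpos_of_nonneg (by linarith) hl.le
  have hzf : z * f ≤ 3 / 8 * l := by
    have h1 := mul_exp_neg_le (z / l)
    have h2 : -(z / l) = -z / l := by ring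
    rw [h2, ← hf] at h1
    have h3 : z * f = l * (z / l * f) := by field_simp
    rw [h3]
    nlinarith
  generalize hqd : (√(k : ℝ))⁻¹ / 2 + √(k : ℝ) * c ^ 2 / 2 = q at *
  generalize √(((k : ℝ) - 1) / 2) = S at *
  have habs : 0 ≤ |c| := abs_nonneg c
  have hcle : c ≤ |c| := le_abs_self c
  have hcge : -|c| ≤ c := neg_abs_le c
  -- the four error terms
  have t1 : k * r * w * f ≤ k * (r * w) := by
    have : 0 ≤ k * (r * w) := by positivity
    nlinarith
  have t2 : (w + (k - 1) * w * c) * f * g ≤ w + (k - 1) * w * |c| := by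
    have h1 : |w + (k - 1) * w * c| ≤ w + (k - 1) * w * |c| := by
      refine (abs_add_le _ _).trans (le_of_eq ?_)
      rw [abs_of_nonneg hw0, abs_mul, abs_of_nonneg (by positivity : (0 : ℝ) ≤ (k - 1) * w)]
    have h2 : |f * g| ≤ 1 := by
      rw [abs_mul, abs_of_pos hf0]
      exact mul_le_one₀ hf1 (abs_nonneg _) hg
    calc (w + (k - 1) * w * c) * f * g ≤ |(w + (k - 1) * w * c) * f * g| := le_abs_self _
      _ = |w + (k - 1) * w * c| * |f * g| := by rw [← abs_mul]; ring_nf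
      _ ≤ (w + (k - 1) * w * |c|) * 1 :=
          mul_le_mul h1 h2 (abs_nonneg _) (by positivity)
      _ = _ := mul_one _
  have t3 : w * f / l * (k * b) ≤ w * (k / l) := by
    have h1 : w * f / l * (k * b) ≤ w * f / l * (k * 1) := by
      refine mul_le_mul_of_nonneg_left ?_ (by positivity)
      exact mul_le_mul_of_nonneg_left hb hk0.le
    have h2 : w * f / l * (k * 1) = w * (k / l) * f := by ring
    have h3 : 0 ≤ w * (k / l) := by positivity
    nlinarith
  have t4 : w * f / l * (z * g) ≤ 3 / 8 * w := by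
    have h1 : z * g ≤ z * 1 := mul_le_mul_of_nonneg_left ((le_abs_self g).trans hg) hz
    have h2 : w * f / l * (z * g) ≤ w * f / l * (z * 1) :=
      mul_le_mul_of_nonneg_left h1 (by positivity)
    have h3 : w * f / l * (z * 1) = w / l * (z * f) := by ring
    have h4 : w / l * (z * f) ≤ w / l * (3 / 8 * l) :=
      mul_le_mul_of_nonneg_left hzf (by positivity)
    have h5 : w / l * (3 / 8 * l) = 3 / 8 * w := by field_simp
    linarith
  -- the two brackets
  have hN : k * (r * w) + w * (11 / 8 + k / l) + (k - 1) * w * |c| ≤ k * A := by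
    have h1 : k * (r * w) ≤ 32 / 27 * ρ * k := by nlinarith
    have h2 : w * (11 / 8 + k / l) ≤ 11 / 8 + k / l := by
      have : 0 ≤ 11 / 8 + (k : ℝ) / l := by positivity
      nlinarith
    have h3 : (k - 1) * w * |c| ≤ S := by
      calc (k - 1) * w * |c| = (k - 1) * (w * |c|) := by ring
        _ ≤ S := hwc
    linarith
  have b1 : 0 ≤ k * (A + l * w * (1 - f)) -
      (k * (r * w) + w * (11 / 8 + k / l) + (k - 1) * w * |c|) := by
    have h1 : 0 ≤ k * (l * w * (1 - f)) := by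
      have : 0 ≤ 1 - f := by linarith
      positivity
    nlinarith
  have b2 : 0 ≤ H k l ρ t * sin t + l * ((k - 1) * w * c) * (1 - f) - w * f * z -
      (k * (r * w) + w * (11 / 8 + k / l) + (k - 1) * w * |c|) := by
    have h1 : w * f * z ≤ w * (3 / 8 * l) := by
      calc w * f * z = w * (z * f) := by ring
        _ ≤ _ := mul_le_mul_of_nonneg_left hzf hw0
    have h2 : -(l / 2 * (k - 1) * w * (|c| - c)) ≤ l * ((k - 1) * w * c) * (1 - f) := by
      have hP : 0 ≤ l * ((k - 1) * w) := by positivity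
      rcases le_total 0 c with hc | hc
      · rw [abs_of_nonneg hc, sub_self, mul_zero, neg_zero]
        have : 0 ≤ 1 - f := by linarith
        have h3 : l * ((k - 1) * w * c) * (1 - f) = l * ((k - 1) * w) * (c * (1 - f)) := by ring
        rw [h3]
        positivity
      · rw [abs_of_nonpos hc]
        have h3 : l * ((k - 1) * w * c) * (1 - f) + l / 2 * (k - 1) * w * (-c - c) =
            l * ((k - 1) * w) * (-c * f) := by ring
        have h4 : 0 ≤ l * ((k - 1) * w) * (-c * f) :=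
          mul_nonneg hP (mul_nonneg (by linarith) hf0.le)
        linarith
    have h3 : w * ((l / 2 + 1) * (k - 1) * |c|) ≤ w * ((l / 2 + 1) * (k - 1) * q) := by
      refine mul_le_mul_of_nonneg_left ?_ hw0
      exact mul_le_mul_of_nonneg_left hq (by positivity)
    rw [hH]
    unfold cw
    linarith [h1, h2, h3]
  have hfin := add_nonneg (mul_nonneg (by linarith : 0 ≤ 1 - ξ) b1) (mul_nonneg hξ0 b2)
  linarith [hfin, t1, t2, t3, t4]

end Pool.Agent.Helper14.QR
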